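import Pool.Agent.Lib.helper5.Soc

namespace Pool.Agent.Results.MP_40eef6_lc.NotSoc

/-- `H` is an infinite set on whose `n`-element subsets `c` is constant -/
def Homog {k : ℕ} (n : ℕ) (c : Finset ℕ → Fin k) (H : Set ℕ) : Prop :=
  H.Infinite ∧ ∃ j, ∀ s : Finset ℕ, (↑s : Set ℕ) ⊆ H → s.card = n → c s = j

/-- the characteristic function of `H` -/
noncomputable def ind (H : Set ℕ) : ℕ →. ℕ :=
  fun m => Part.some (Set.indicator H (fun _ => (1 : ℕ)) m)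

/-- `RT^n_k` is strongly omnisciently computably reducible to `RT^m_l` -/
def Soc (n k m l : ℕ) : Prop :=
  ∀ c : Finset ℕ → Fin k, ∃ d : Finset ℕ → Fin l, ∀ H : Set ℕ, Homog m d H →
    ∃ K : Set ℕ, Homog n c K ∧ TuringReducible (ind K) (ind H)

theorem result (n k : ℕ) (hn : 2 ≤ n) (hk : 2 ≤ k) :
    ¬ Soc n (k + 1) n k ∧ ¬ Soc (n + 1) k n k := by
  obtain ⟨r, rfl⟩ : ∃ r, n = r + 1 := ⟨n - 1, by omega⟩
  refine ⟨fun h => ?_, fun h => ?_⟩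
  · obtain ⟨f, hf⟩ := H5F.soc1 k r
    obtain ⟨d, hd⟩ := h f
    obtain ⟨H, h1, h2, h3⟩ := hf d
    obtain ⟨K, ⟨k1, k2⟩, k3⟩ := hd H ⟨h1, h2⟩
    obtain ⟨e, rfl⟩ := H5F.exists_G_ind k3
    exact h3 e k1 k2
  · obtain ⟨f, hf⟩ := H5F.soc2 k r
    obtain ⟨d, hd⟩ := h fun s => if f s then ⟨1, by omega⟩ else ⟨0, by omega⟩
    obtain ⟨H, h1, h2, h3⟩ := hf d
    obtain ⟨K, ⟨k1, j, k2⟩, k3⟩ := hd H ⟨h1, h2⟩
    obtain ⟨e, rfl⟩ := H5F.exists_G_ind k3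
    refine h3 e k1 ⟨decide (j.1 = 1), fun s a b => ?_⟩
    rw [← k2 s a b]
    cases hs : f s <;> simp [hs]

end Pool.Agent.Results.MP_40eef6_lc.NotSoc
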